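import Mathlib
import Pool.Agent.J4H15.AP.Core
import Pool.Agent.Results.MP_2d259b_nt.FibresOffPolynomialValues

set_option autoImplicit false

/-!
# Effective bounds for the integer points of `F(x, y) = t` for ALL `t` in residue classes

Let `F ∈ ℤ[x, y]` have degree `d ≥ 4` and a squarefree leading form. Call `t` large for `F` if some
integer point of the curve `F(x, y) = t` is larger than an explicit power of `h(F) + |t|`. The large
`t` are a thin set; here we show that they avoid almost all residue classes: for every `ε > 0` there is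
a modulus `Q` such that all but `ε Q` of the residue classes modulo `Q` contain no large `t` at all.
Every product of many primes `p = 1` modulo `d` outside a finite set (depending on `F`) is such a `Q`.
Every residue class contains a nested sequence of residue classes (that is, a profinite integer) such
that for EVERY `F` of this kind one of these classes contains no `t` which is large for `F`.

Proof. By the starting result `FibresOffPolynomialValues` the large `t` are values of boundedly many
polynomials `U ∈ ℤ[k]` of degree `d` or `0`. If `p = 1` modulo `d` is a prime which does not divide the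
leading coefficient of `U`, then the power sums of the values of `U` modulo `p` vanish for the
exponents less than `(p - 1) / d`, but not for this exponent; so more than `(p - 1) / d` residues are
taken not exactly once, and at least `p / (2 d)` residues are not taken. For different primes this is
independent by the Chinese remainder theorem.
-/

namespace Pool.Agent.Results.MP_2d259b_nt.ArithmeticProgressions

open Finset

/-- the degree of `F` is at least `4` and its leading form is squarefree over `ℚ` -/
def Regular (F : MvPolynomial (Fin 2) ℤ) : Prop :=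
  4 ≤ F.totalDegree ∧ Squarefree (MvPolynomial.map (Int.castRingHom ℚ)
    (MvPolynomial.homogeneousComponent F.totalDegree F))

/-- the sum of the absolute values of the coefficients -/
def len (F : MvPolynomial (Fin 2) ℤ) : ℕ := ∑ m ∈ F.support, (F.coeff m).natAbs

/-- the bound `((d + 1) (h(F) + |t|)) ^ (10 ^ 17 * 1296 ^ d * (d + 1) ^ 15)` -/
def bound (F : MvPolynomial (Fin 2) ℤ) (t : ℤ) : ℕ :=
  ((F.totalDegree + 1) * (len F + t.natAbs)) ^
    (10 ^ 17 * 1296 ^ F.totalDegree * (F.totalDegree + 1) ^ 15)

/-- `t` is large for `F`: the curve `F(x, y) = t` has an integer point which violates the bound -/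
def Large (F : MvPolynomial (Fin 2) ℤ) (t : ℤ) : Prop :=
  ∃ x y : ℤ, MvPolynomial.eval ![x, y] F = t ∧ bound F t < max x.natAbs y.natAbs

/-- the residues `r` modulo `Q`, `0 ≤ r < Q`, of the integers which are large for `F` -/
def largeResidues (F : MvPolynomial (Fin 2) ℤ) (Q : ℕ) : Set ℕ :=
  {r | r < Q ∧ ∃ t : ℤ, t ≡ r [ZMOD Q] ∧ Large F t}

theorem cov (F : MvPolynomial (Fin 2) ℤ) (hF : Regular F) :
    Pool.Agent.J4H15.AP.Cov F.totalDegree
      (10 ^ 9 * 36 ^ F.totalDegree * (F.totalDegree + 1) ^ 8) (Large F) := by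
  obtain ⟨⟨S, h1, h2, h3⟩, -⟩ := FibresOffPolynomialValues.result F.totalDegree hF.1 F rfl hF.2
  refine ⟨S, h1, h2, ?_⟩
  rintro t ⟨x, y, hxy, hlt⟩
  by_contra hcon
  push Not at hcon
  exact absurd hlt (not_lt.mpr (h3 t hcon x y hxy))

theorem largeResidues_eq (F : MvPolynomial (Fin 2) ℤ) (Q : ℕ) :
    largeResidues F Q = (Pool.Agent.J4H15.AP.badres (Large F) Q : Set ℕ) := by
  classical
  ext r
  rw [Pool.Agent.J4H15.AP.badres, mem_coe, mem_filter, mem_range]
  constructor
  · rintro ⟨h1, t, h2, h3⟩
    exact ⟨h1, t, h2.symm.dvd, h3⟩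
  · rintro ⟨h1, t, h2, h3⟩
    exact ⟨h1, t, (Int.modEq_iff_dvd.mpr h2).symm, h3⟩

theorem countable_regular : Countable {F : MvPolynomial (Fin 2) ℤ // Regular F} := by
  have h : Countable (MvPolynomial (Fin 2) ℤ) := by
    rw [← Cardinal.mk_le_aleph0_iff]
    refine MvPolynomial.cardinalMk_le_max.trans ?_
    simp
  infer_instance

/-- **The curves `F(x, y) = t` for all `t` in residue classes.** (1) For every regular `F` of degree
`d` there is `B > 0` such that for every finite set `T` of primes `p = 1` modulo `d` which do not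
divide `B` the integers `t` which are large for `F` lie in at most
`10 ^ 9 36 ^ d (d + 1) ^ 8 ((1 - 1 / (2 d)) ^ |T| Q + 1)` residue classes modulo `Q = ∏ T`. (2) For
every regular `F` and `ε > 0` there is `Q ≥ 1` such that all but at most `ε Q` of the residue classes
modulo `Q` contain no `t` which is large for `F`. (3) Every residue class `a` modulo `b` is the first
term of a decreasing sequence of residue classes `r n` modulo `Q n` such that for every regular `F`
there is `n` such that for ALL integers `t` in the class `r n` modulo `Q n` all integer points of the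
curve `F(x, y) = t` satisfy the bound. -/
theorem result :
    (∀ F : MvPolynomial (Fin 2) ℤ, Regular F → ∃ B : ℕ, 0 < B ∧ ∀ T : Finset ℕ,
      (∀ p ∈ T, p.Prime ∧ p % F.totalDegree = 1 ∧ ¬ p ∣ B) →
      ((largeResidues F (∏ p ∈ T, p)).ncard : ℝ) ≤
        (10 ^ 9 * 36 ^ F.totalDegree * (F.totalDegree + 1) ^ 8 : ℕ) *
          ((1 - 1 / (2 * F.totalDegree)) ^ T.card * ((∏ p ∈ T, p : ℕ) : ℝ) + 1)) ∧
    (∀ F : MvPolynomial (Fin 2) ℤ, Regular F → ∀ ε : ℝ, 0 < ε →
      ∃ Q : ℕ, 0 < Q ∧ ((largeResidues F Q).ncard : ℝ) ≤ ε * Q) ∧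
    ∀ a b : ℕ, 0 < b → ∃ Q r : ℕ → ℕ, Q 0 = b ∧ r 0 = a ∧
      (∀ n, 0 < Q n ∧ Q n ∣ Q (n + 1) ∧ r (n + 1) ≡ r n [MOD Q n]) ∧
      ∀ F : MvPolynomial (Fin 2) ℤ, Regular F → ∃ n, ∀ t : ℤ, t ≡ r n [ZMOD Q n] →
        ∀ x y : ℤ, MvPolynomial.eval ![x, y] F = t → max x.natAbs y.natAbs ≤ bound F t := by
  refine ⟨?_, ?_, ?_⟩
  · intro F hF
    obtain ⟨B, hB, h⟩ := Pool.Agent.J4H15.AP.count _ _ (le_trans (by norm_num) hF.1) _ (cov F hF)
    refine ⟨B, hB, fun T hT => ?_⟩
    rw [largeResidues_eq, Set.ncard_coe_finset]
    exact h T hT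
  · intro F hF ε hε
    obtain ⟨Q, hQ, -, h⟩ := Pool.Agent.J4H15.AP.almost_all _ _ (le_trans (by norm_num) hF.1) _
      (cov F hF) 1 one_pos ε hε
    refine ⟨Q, hQ, ?_⟩
    rw [largeResidues_eq, Set.ncard_coe_finset]
    exact h
  · intro a b hb
    have := countable_regular
    obtain ⟨Q, r, h1, h2, h3, h4⟩ := Pool.Agent.J4H15.AP.nested
      (fun (F : {F : MvPolynomial (Fin 2) ℤ // Regular F}) => Large F.1)
      (fun F b hb => Pool.Agent.J4H15.AP.one_class _ _ (le_trans (by norm_num) F.2.1) _
        (cov F.1 F.2) b hb) a b hb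
    refine ⟨Q, r, h1, h2, h3, fun F hF => ?_⟩
    obtain ⟨n, hn⟩ := h4 ⟨F, hF⟩
    refine ⟨n, fun t ht x y hxy => ?_⟩
    by_contra hcon
    push Not at hcon
    exact hn t ht.symm.dvd ⟨x, y, hxy, hcon⟩

end Pool.Agent.Results.MP_2d259b_nt.ArithmeticProgressions
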