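import Pool.Agent.Results.MP_2d259b_nt.ShortIntervals
import Pool.Agent.J4H48.SI.Sqf

/-!
# A random change of three coefficients makes every plane curve effective

For EVERY polynomial `F ∈ ℤ[x, y]` of degree at most `D`, `D ≥ 4`, in each box of side `m` all but
`C(D) m ^ (2 + 1 / D)` of the `m ^ 3` polynomials `F + s x ^ D + t y ^ D + c` have all their integer
zeros bounded by an explicit power of the sum of the absolute values of the coefficients.
-/

set_option autoImplicit false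

namespace Pool.Agent.Results.MP_2d259b_nt.EveryPolynomial

open MeasureTheory Filter

/-- the sum of the absolute values of the coefficients -/
def len (F : MvPolynomial (Fin 2) ℤ) : ℕ := ∑ m ∈ F.support, (F.coeff m).natAbs

/-- the polynomial `F + s x ^ D + t y ^ D + c` -/
noncomputable def pert (F : MvPolynomial (Fin 2) ℤ) (D : ℕ) (s t c : ℤ) : MvPolynomial (Fin 2) ℤ :=
  F + MvPolynomial.C s * MvPolynomial.X 0 ^ D + MvPolynomial.C t * MvPolynomial.X 1 ^ D +
    MvPolynomial.C c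

/-- `F` has an integer zero `(x, y)` with
`max |x| |y| > ((D + 1) h(F)) ^ (10 ^ 17 * 1296 ^ D * (D + 1) ^ 15)` -/
def Far (D : ℕ) (F : MvPolynomial (Fin 2) ℤ) : Prop :=
  ∃ x y : ℤ, MvPolynomial.eval ![x, y] F = 0 ∧
    ((D + 1) * len F) ^ (10 ^ 17 * 1296 ^ D * (D + 1) ^ 15) < max x.natAbs y.natAbs

theorem len_add_C (G : MvPolynomial (Fin 2) ℤ) (hG : G.coeff 0 = 0) (k : ℤ) :
    len (G + MvPolynomial.C k) = len G + k.natAbs := by
  classical
  have h0 : (0 : Fin 2 →₀ ℕ) ∉ G.support := MvPolynomial.notMem_support_iff.2 hG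
  unfold len
  have hsub : (G + MvPolynomial.C k).support ⊆ insert 0 G.support := by
    intro m hm
    rw [Finset.mem_insert]
    by_cases h : m = 0
    · exact Or.inl h
    · right
      rw [MvPolynomial.mem_support_iff] at hm ⊢
      rw [MvPolynomial.coeff_add, MvPolynomial.coeff_C, if_neg (Ne.symm h), add_zero] at hm
      exact hm
  rw [Finset.sum_subset hsub (fun m _ hm => by
    rw [MvPolynomial.notMem_support_iff.1 hm, Int.natAbs_zero]), Finset.sum_insert h0,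
    MvPolynomial.coeff_add, hG, MvPolynomial.coeff_C, if_pos rfl, zero_add, add_comm]
  congr 1
  apply Finset.sum_congr rfl
  intro m hm
  have hne : m ≠ 0 := by
    rintro rfl
    exact h0 hm
  rw [MvPolynomial.coeff_add, MvPolynomial.coeff_C, if_neg hne.symm, add_zero]

theorem deg_map_le (D : ℕ) (F : MvPolynomial (Fin 2) ℤ) : (MvPolynomial.map (Int.castRingHom ℚ)
    (MvPolynomial.homogeneousComponent D F)).totalDegree ≤ D := by
  have h1 : (MvPolynomial.map (Int.castRingHom ℚ)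
      (MvPolynomial.homogeneousComponent D F)).totalDegree ≤
      (MvPolynomial.homogeneousComponent D F).totalDegree :=
    Finset.sup_mono (MvPolynomial.support_map_subset (Int.castRingHom ℚ) _)
  exact h1.trans (MvPolynomial.homogeneousComponent_isHomogeneous D F).totalDegree_le

theorem coeff_zero_pert (F : MvPolynomial (Fin 2) ℤ) (D : ℕ) (hD : 1 ≤ D) (s t c : ℤ) :
    (pert F D s t c).coeff 0 = F.coeff 0 + c := by
  have h1 : ∀ (i : Fin 2) (s : ℤ),
      MvPolynomial.coeff 0 (MvPolynomial.C s * MvPolynomial.X i ^ D : MvPolynomial (Fin 2) ℤ) = 0 := by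
    intro i s
    rw [MvPolynomial.coeff_C_mul, MvPolynomial.coeff_X_pow, if_neg, mul_zero]
    intro h
    have := congrArg (fun f => f i) h
    simp only [Finsupp.single_eq_same, Finsupp.coe_zero, Pi.zero_apply] at this
    omega
  unfold pert
  rw [MvPolynomial.coeff_add, MvPolynomial.coeff_add, MvPolynomial.coeff_add, h1, h1,
    MvPolynomial.coeff_C, if_pos rfl, add_zero, add_zero]

theorem pert_eq (F : MvPolynomial (Fin 2) ℤ) (D : ℕ) (s t c : ℤ) :
    pert F D s t c = pert F D s t (-F.coeff 0) + MvPolynomial.C (F.coeff 0 + c) := by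
  unfold pert
  rw [map_add, map_neg]
  ring

theorem eval_pert (F : MvPolynomial (Fin 2) ℤ) (D : ℕ) (s t c x y : ℤ) :
    MvPolynomial.eval ![x, y] (pert F D s t c) =
      MvPolynomial.eval ![x, y] (pert F D s t (-F.coeff 0)) + (F.coeff 0 + c) := by
  rw [pert_eq, map_add, MvPolynomial.eval_C]

theorem comp_pert (F : MvPolynomial (Fin 2) ℤ) (D : ℕ) (hD : 1 ≤ D) (s t c : ℤ) :
    MvPolynomial.homogeneousComponent D (pert F D s t c) =
      MvPolynomial.homogeneousComponent D F + MvPolynomial.C s * MvPolynomial.X 0 ^ D +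
        MvPolynomial.C t * MvPolynomial.X 1 ^ D := by
  have h1 : ∀ i : Fin 2, MvPolynomial.homogeneousComponent D
      (MvPolynomial.X i ^ D : MvPolynomial (Fin 2) ℤ) = MvPolynomial.X i ^ D := by
    intro i
    rw [MvPolynomial.homogeneousComponent_of_mem (n := D)
      (MvPolynomial.isHomogeneous_X_pow i D), if_pos rfl]
  have h2 : MvPolynomial.homogeneousComponent D (MvPolynomial.C c : MvPolynomial (Fin 2) ℤ) = 0 := by
    rw [MvPolynomial.homogeneousComponent_of_mem (n := 0) (MvPolynomial.isHomogeneous_C _ c),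
      if_neg (by omega)]
  unfold pert
  rw [map_add, map_add, map_add, MvPolynomial.homogeneousComponent_C_mul,
    MvPolynomial.homogeneousComponent_C_mul, h1, h1, h2, add_zero]

open Pool.Agent.J4H48.SI in
/-- the dehomogenized leading form -/
theorem dh_pert (F : MvPolynomial (Fin 2) ℤ) (D : ℕ) (hD : 1 ≤ D) (s t c : ℤ) :
    dh (MvPolynomial.map (Int.castRingHom ℚ)
      (MvPolynomial.homogeneousComponent D (pert F D s t c))) =
    (dh (MvPolynomial.map (Int.castRingHom ℚ) (MvPolynomial.homogeneousComponent D F)) +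
      Polynomial.C (s : ℚ) * Polynomial.X ^ D) + Polynomial.C (t : ℚ) := by
  rw [comp_pert F D hD, map_add, map_add, dh_add, dh_add]
  congr 1
  · congr 1
    unfold dh
    simp
  · unfold dh
    simp

open Pool.Agent.J4H48.SI in
theorem natDegree_h (F : MvPolynomial (Fin 2) ℤ) (D : ℕ) (s : ℤ)
    (hs : F.coeff (Finsupp.single 0 D) + s ≠ 0) :
    (dh (MvPolynomial.map (Int.castRingHom ℚ) (MvPolynomial.homogeneousComponent D F)) +
      Polynomial.C (s : ℚ) * Polynomial.X ^ D).natDegree = D := by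
  have hdeg := deg_map_le D F
  apply Polynomial.natDegree_eq_of_le_of_coeff_ne_zero
  · refine (Polynomial.natDegree_add_le _ _).trans (max_le ?_ ?_)
    · exact (dh_natDegree_le _).trans hdeg
    · exact Polynomial.natDegree_C_mul_X_pow_le _ _
  · rw [Polynomial.coeff_add, dh_coeff _ D hdeg, Polynomial.coeff_C_mul_X_pow, if_pos rfl,
      MvPolynomial.coeff_map, MvPolynomial.coeff_homogeneousComponent, if_pos (by
        simp [Finsupp.degree_single])]
    have h1 : ((Int.castRingHom ℚ) (F.coeff (Finsupp.single 0 D)) : ℚ) + (s : ℚ) =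
      ((F.coeff (Finsupp.single 0 D) + s : ℤ) : ℚ) := by push_cast; rfl
    rw [h1]
    exact_mod_cast hs

open Pool.Agent.J4H48.SI in
theorem regular_of (F : MvPolynomial (Fin 2) ℤ) (D : ℕ) (hD : 4 ≤ D) (hF : F.totalDegree ≤ D)
    (s t c : ℤ) (hs : F.coeff (Finsupp.single 0 D) + s ≠ 0)
    (hsq : Squarefree ((dh (MvPolynomial.map (Int.castRingHom ℚ)
      (MvPolynomial.homogeneousComponent D F)) +
      Polynomial.C (s : ℚ) * Polynomial.X ^ D) + Polynomial.C (t : ℚ))) :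
    (pert F D s t c).totalDegree = D ∧ ShortIntervals.Regular (pert F D s t c) := by
  have hX : ∀ (i : Fin 2) (s : ℤ), (MvPolynomial.C s * MvPolynomial.X i ^ D :
      MvPolynomial (Fin 2) ℤ).totalDegree ≤ D := by
    intro i s
    refine (MvPolynomial.totalDegree_mul _ _).trans ?_
    rw [MvPolynomial.totalDegree_C, zero_add]
    exact (MvPolynomial.isHomogeneous_X_pow i D).totalDegree_le
  have h1 : (pert F D s t c).totalDegree ≤ D := by
    unfold pert
    refine (MvPolynomial.totalDegree_add _ _).trans (max_le ?_ ?_)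
    · refine (MvPolynomial.totalDegree_add _ _).trans (max_le ?_ (hX 1 t))
      exact (MvPolynomial.totalDegree_add _ _).trans (max_le hF (hX 0 s))
    · rw [MvPolynomial.totalDegree_C]
      omega
  have hco : (pert F D s t c).coeff (Finsupp.single 0 D) = F.coeff (Finsupp.single 0 D) + s := by
    unfold pert
    rw [MvPolynomial.coeff_add, MvPolynomial.coeff_add, MvPolynomial.coeff_add,
      MvPolynomial.coeff_C_mul, MvPolynomial.coeff_C_mul, MvPolynomial.coeff_X_pow,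
      MvPolynomial.coeff_X_pow, MvPolynomial.coeff_C, if_pos rfl, if_neg, if_neg]
    · ring
    · intro h
      have := congrArg (fun f => f 0) h
      simp only [Finsupp.single_eq_same, Finsupp.coe_zero, Pi.zero_apply] at this
      omega
    · intro h
      have := congrArg (fun f => f 0) h
      rw [Finsupp.single_eq_same, Finsupp.single_eq_of_ne (by decide)] at this
      omega
  have h2 : D ≤ (pert F D s t c).totalDegree := by
    have h3 : Finsupp.single 0 D ∈ (pert F D s t c).support := by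
      rw [MvPolynomial.mem_support_iff, hco]
      exact hs
    have h4 := MvPolynomial.le_totalDegree h3
    rw [Finsupp.sum_single_index rfl] at h4
    exact h4
  have h3 : (pert F D s t c).totalDegree = D := le_antisymm h1 h2
  refine ⟨h3, ?_, ?_⟩
  · rw [h3]
    exact hD
  · rw [h3]
    apply sqf_lift _ D
    · exact deg_map_le D _
    · rw [dh_pert F D (by omega), Polynomial.natDegree_add_C]
      exact natDegree_h F D s hs
    · omega
    · rw [dh_pert F D (by omega)]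
      exact hsq

open Classical in
/-- the constants for a regular leading form -/
theorem count_c (F : MvPolynomial (Fin 2) ℤ) (D : ℕ) (hD : 4 ≤ D) (s t : ℤ)
    (hdeg : (pert F D s t (-F.coeff 0)).totalDegree = D)
    (hreg : ShortIntervals.Regular (pert F D s t (-F.coeff 0))) (c0 : ℤ) (m : ℕ) (hm : 1 ≤ m) :
    (((Finset.Ico c0 (c0 + m)).filter (fun c => Far D (pert F D s t c))).card : ℝ) ≤
      (ShortIntervals.con D : ℝ) * (m : ℝ) ^ (1 / (D : ℝ)) := by
  obtain ⟨G, hG⟩ : ∃ G, G = pert F D s t (-F.coeff 0) := ⟨_, rfl⟩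
  rw [← hG] at hdeg hreg
  have h := ShortIntervals.count G hreg (-(F.coeff 0 + c0 + m) + 1) m hm
  rw [hdeg] at h
  refine le_trans ?_ h
  have hG0 : G.coeff 0 = 0 := by
    rw [hG, coeff_zero_pert F D (by omega)]
    ring
  have hinj : Function.Injective fun c : ℤ => -(F.coeff 0 + c) := by
    intro c c' hcc
    have h1 : -(F.coeff 0 + c) = -(F.coeff 0 + c') := hcc
    linarith
  have hsub : ((((Finset.Ico c0 (c0 + m)).filter (fun c => Far D (pert F D s t c))).image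
      fun c : ℤ => -(F.coeff 0 + c) : Finset ℤ) : Set ℤ) ⊆
      {t : ℤ | -(F.coeff 0 + c0 + m) + 1 ≤ t ∧ t < -(F.coeff 0 + c0 + m) + 1 + m ∧
        ShortIntervals.Large G t} := by
    intro t' ht'
    rw [Finset.mem_coe, Finset.mem_image] at ht'
    obtain ⟨c, hc, rfl⟩ := ht'
    rw [Finset.mem_filter, Finset.mem_Ico] at hc
    obtain ⟨⟨hc1, hc2⟩, x, y, hxy, hlt⟩ := hc
    refine ⟨by linarith, by linarith, x, y, ?_, ?_⟩
    · rw [eval_pert, ← hG] at hxy
      linarith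
    · unfold ShortIntervals.bound
      rw [hdeg, Int.natAbs_neg]
      rw [pert_eq, ← hG, len_add_C G hG0] at hlt
      exact hlt
  have h1 := Set.ncard_le_ncard hsub (ShortIntervals.finite_set G _ m)
  rw [Set.ncard_coe_finset, Finset.card_image_of_injective _ hinj] at h1
  exact_mod_cast h1

open Classical in
/-- the exceptional `t` for a given `s` -/
theorem count_t (F : MvPolynomial (Fin 2) ℤ) (D : ℕ) (hD : 4 ≤ D) (hF : F.totalDegree ≤ D) (s : ℤ)
    (hs : F.coeff (Finsupp.single 0 D) + s ≠ 0) (T : Finset ℤ) :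
    (T.filter fun t => ¬ ((pert F D s t (-F.coeff 0)).totalDegree = D ∧
      ShortIntervals.Regular (pert F D s t (-F.coeff 0)))).card ≤ D - 1 := by
  apply Pool.Agent.J4H48.SI.count_sqf _ D (by omega) (natDegree_h F D s hs)
  intro t ht hsq
  rw [Finset.mem_filter] at ht
  exact ht.2 (regular_of F D hD hF s t _ hs hsq)

open Classical in
/-- the count in a box -/
theorem count_box (F : MvPolynomial (Fin 2) ℤ) (D : ℕ) (hD : 4 ≤ D) (hF : F.totalDegree ≤ D)
    (s0 t0 c0 : ℤ) (m : ℕ) (hm : 1 ≤ m) :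
    (((Finset.Ico s0 (s0 + m) ×ˢ (Finset.Ico t0 (t0 + m) ×ˢ Finset.Ico c0 (c0 + m))).filter
      (fun p => Far D (pert F D p.1 p.2.1 p.2.2))).card : ℝ) ≤
      2 * ShortIntervals.con D * (m : ℝ) ^ (2 + 1 / (D : ℝ)) := by
  obtain ⟨f0, hf0⟩ : ∃ f0, f0 = F.coeff (Finsupp.single 0 D) := ⟨_, rfl⟩
  obtain ⟨K, hK⟩ : ∃ K : ℝ, K = (ShortIntervals.con D : ℝ) * (m : ℝ) ^ (1 / (D : ℝ)) := ⟨_, rfl⟩
  have hm1 : (1 : ℝ) ≤ m := by exact_mod_cast hm
  have hK0 : 0 ≤ K := by rw [hK]; positivity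
  have hcardI : ∀ a : ℤ, (Finset.Ico a (a + m)).card = m := by
    intro a
    rw [Int.card_Ico]
    simp
  have hin : ∀ s t : ℤ, ((((Finset.Ico c0 (c0 + m)).filter
      (fun c => Far D (pert F D s t c))).card : ℕ) : ℝ) ≤ m := by
    intro s t
    have h1 := Finset.card_filter_le (Finset.Ico c0 (c0 + m)) (fun c => Far D (pert F D s t c))
    rw [hcardI] at h1
    exact_mod_cast h1
  have hsum : (((Finset.Ico s0 (s0 + m) ×ˢ (Finset.Ico t0 (t0 + m) ×ˢ Finset.Ico c0 (c0 + m))).filter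
      (fun p => Far D (pert F D p.1 p.2.1 p.2.2))).card : ℝ) =
      ∑ s ∈ Finset.Ico s0 (s0 + m), ∑ t ∈ Finset.Ico t0 (t0 + m),
        ((((Finset.Ico c0 (c0 + m)).filter (fun c => Far D (pert F D s t c))).card : ℕ) : ℝ) := by
    rw [Finset.card_filter, Finset.sum_product]
    push_cast
    apply Finset.sum_congr rfl
    intro s _
    rw [Finset.sum_product]
    apply Finset.sum_congr rfl
    intro t _
    rw [Finset.card_filter]
    push_cast
    rfl
  have hs1 : ∀ s : ℤ, f0 + s ≠ 0 → ∑ t ∈ Finset.Ico t0 (t0 + m),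
      ((((Finset.Ico c0 (c0 + m)).filter (fun c => Far D (pert F D s t c))).card : ℕ) : ℝ) ≤
      (D - 1) * m + m * K := by
    intro s hs
    rw [hf0] at hs
    have h1 := count_t F D hD hF s hs (Finset.Ico t0 (t0 + m))
    rw [← Finset.sum_filter_add_sum_filter_not (Finset.Ico t0 (t0 + m)) (fun t =>
      ¬ ((pert F D s t (-F.coeff 0)).totalDegree = D ∧
      ShortIntervals.Regular (pert F D s t (-F.coeff 0))))]
    apply add_le_add
    · refine (Finset.sum_le_card_nsmul _ _ (m : ℝ) (fun t _ => hin s t)).trans ?_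
      rw [nsmul_eq_mul]
      apply mul_le_mul_of_nonneg_right _ (Nat.cast_nonneg m)
      have h2 : (((Finset.Ico t0 (t0 + m)).filter fun t =>
        ¬ ((pert F D s t (-F.coeff 0)).totalDegree = D ∧
          ShortIntervals.Regular (pert F D s t (-F.coeff 0)))).card : ℝ) ≤ ((D - 1 : ℕ) : ℝ) := by
        exact_mod_cast h1
      rw [Nat.cast_sub (by omega), Nat.cast_one] at h2
      exact h2
    · refine (Finset.sum_le_card_nsmul _ _ K (fun t ht => ?_)).trans ?_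
      · rw [Finset.mem_filter, not_not] at ht
        rw [hK]
        exact count_c F D hD s t ht.2.1 ht.2.2 c0 m hm
      · rw [nsmul_eq_mul]
        apply mul_le_mul_of_nonneg_right _ hK0
        have h3 := Finset.card_filter_le (Finset.Ico t0 (t0 + m)) (fun t =>
          ¬¬ ((pert F D s t (-F.coeff 0)).totalDegree = D ∧
          ShortIntervals.Regular (pert F D s t (-F.coeff 0))))
        rw [hcardI] at h3
        exact_mod_cast h3
  have hs2 : ∀ s : ℤ, ∑ t ∈ Finset.Ico t0 (t0 + m),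
      ((((Finset.Ico c0 (c0 + m)).filter (fun c => Far D (pert F D s t c))).card : ℕ) : ℝ) ≤
      m * m := by
    intro s
    refine (Finset.sum_le_card_nsmul _ _ (m : ℝ) (fun t _ => hin s t)).trans ?_
    rw [nsmul_eq_mul, hcardI]
  rw [hsum]
  have htot : ∑ s ∈ Finset.Ico s0 (s0 + m), ∑ t ∈ Finset.Ico t0 (t0 + m),
        ((((Finset.Ico c0 (c0 + m)).filter (fun c => Far D (pert F D s t c))).card : ℕ) : ℝ) ≤
      ∑ s ∈ Finset.Ico s0 (s0 + m), (((D - 1) * m + m * K) + if s = -f0 then (m : ℝ) * m else 0) := by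
    apply Finset.sum_le_sum
    intro s _
    have hnn : (0 : ℝ) ≤ (D - 1) * m + m * K := by
      have : (4 : ℝ) ≤ D := by exact_mod_cast hD
      have : (0 : ℝ) ≤ (D - 1) * m := mul_nonneg (by linarith) (by linarith)
      positivity
    by_cases h : s = -f0
    · rw [if_pos h]
      linarith [hs2 s]
    · rw [if_neg h, add_zero]
      apply hs1
      intro h'
      apply h
      linarith
  refine htot.trans ?_
  rw [Finset.sum_add_distrib, Finset.sum_const, hcardI, nsmul_eq_mul]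
  have hite : ∑ s ∈ Finset.Ico s0 (s0 + m), (if s = -f0 then (m : ℝ) * m else 0) ≤ m * m := by
    rw [Finset.sum_ite_eq']
    split_ifs
    · exact le_rfl
    · positivity
  have hpow : (m : ℝ) ^ (2 + 1 / (D : ℝ)) = m * m * (m : ℝ) ^ (1 / (D : ℝ)) := by
    rw [Real.rpow_add (by linarith), Real.rpow_two, sq]
  have hDcon : (D : ℝ) ≤ ShortIntervals.con D := by
    have : D ≤ ShortIntervals.con D := by
      unfold ShortIntervals.con
      calc D ≤ (D + 1) ^ 10 := (Nat.le_succ D).trans (Nat.le_self_pow (by norm_num) _)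
        _ = 1 * (D + 1) ^ 10 := (one_mul _).symm
        _ ≤ 2 * 10 ^ 9 * 36 ^ D * (D + 1) ^ 10 := by
            apply Nat.mul_le_mul_right
            exact Nat.one_le_iff_ne_zero.2 (by positivity)
    exact_mod_cast this
  have hμ : (1 : ℝ) ≤ (m : ℝ) ^ (1 / (D : ℝ)) := Real.one_le_rpow hm1 (by positivity)
  have e1 : (m : ℝ) * ((D - 1) * m + m * K) + m * m = D * (m * m) + m * m * K := by ring
  have e2 : (D : ℝ) * (m * m) ≤ ShortIntervals.con D * (m * m * (m : ℝ) ^ (1 / (D : ℝ))) := by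
    apply mul_le_mul hDcon _ (by positivity) (Nat.cast_nonneg _)
    exact le_mul_of_one_le_right (by positivity) hμ
  rw [hpow]
  have e3 : (m : ℝ) * m * K = ShortIntervals.con D * (m * m * (m : ℝ) ^ (1 / (D : ℝ))) := by
    rw [hK]
    ring
  linarith

/-- the three changes `ξ = (s, t, c)` lie in a box of side `m`, each triple having probability at
most `κ / m ^ 3` -/
def Noise {Ω : Type*} [MeasurableSpace Ω] (μ : Measure Ω) (ξ : Ω → ℤ × ℤ × ℤ) (s0 t0 c0 : ℤ)
    (m : ℕ) (κ : ℝ) : Prop :=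
  (∀ᵐ ω ∂μ, (s0 ≤ (ξ ω).1 ∧ (ξ ω).1 < s0 + m) ∧ (t0 ≤ (ξ ω).2.1 ∧ (ξ ω).2.1 < t0 + m) ∧
    (c0 ≤ (ξ ω).2.2 ∧ (ξ ω).2.2 < c0 + m)) ∧
  ∀ r : ℤ × ℤ × ℤ, μ {ω | ξ ω = r} ≤ ENNReal.ofReal (κ / m ^ 3)

open Classical in
theorem prob {Ω : Type*} [MeasurableSpace Ω] (μ : Measure Ω) (F : MvPolynomial (Fin 2) ℤ) (D : ℕ)
    (hD : 4 ≤ D) (hF : F.totalDegree ≤ D) (ξ : Ω → ℤ × ℤ × ℤ) (s0 t0 c0 : ℤ) (m : ℕ) (hm : 1 ≤ m)
    (κ : ℝ) (hκ : 0 ≤ κ) (hξ : Noise μ ξ s0 t0 c0 m κ) :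
    μ {ω | Far D (pert F D (ξ ω).1 (ξ ω).2.1 (ξ ω).2.2)} ≤
      ENNReal.ofReal (2 * ShortIntervals.con D * κ * (m : ℝ) ^ (-(1 - 1 / (D : ℝ)))) := by
  have hc := count_box F D hD hF s0 t0 c0 m hm
  set V := (Finset.Ico s0 (s0 + m) ×ˢ (Finset.Ico t0 (t0 + m) ×ˢ Finset.Ico c0 (c0 + m))).filter
      (fun p => Far D (pert F D p.1 p.2.1 p.2.2)) with hV
  have hm0 : (0 : ℝ) < m := by exact_mod_cast hm
  have h1 : μ {ω | Far D (pert F D (ξ ω).1 (ξ ω).2.1 (ξ ω).2.2)} ≤ μ (⋃ r ∈ V, {ω | ξ ω = r}) := by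
    apply measure_mono_ae
    filter_upwards [hξ.1] with ω hω hL
    have hL' : Far D (pert F D (ξ ω).1 (ξ ω).2.1 (ξ ω).2.2) := hL
    have : ξ ω ∈ V := by
      rw [hV, Finset.mem_filter, Finset.mem_product, Finset.mem_product, Finset.mem_Ico,
        Finset.mem_Ico, Finset.mem_Ico]
      exact ⟨hω, hL'⟩
    show ω ∈ ⋃ r ∈ V, {ω | ξ ω = r}
    simp only [Set.mem_iUnion, Set.mem_ofPred_eq, exists_prop]
    exact ⟨ξ ω, this, rfl⟩
  refine h1.trans ((measure_biUnion_finset_le _ _).trans ?_)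
  calc ∑ r ∈ V, μ {ω | ξ ω = r} ≤ ∑ _r ∈ V, ENNReal.ofReal (κ / m ^ 3) :=
        Finset.sum_le_sum fun r _ => hξ.2 r
    _ = ENNReal.ofReal (V.card * (κ / m ^ 3)) := by
        rw [Finset.sum_const, nsmul_eq_mul, ENNReal.ofReal_mul (Nat.cast_nonneg _),
          ENNReal.ofReal_natCast]
    _ ≤ _ := by
        apply ENNReal.ofReal_le_ofReal
        have h2 : (V.card : ℝ) * (κ / m ^ 3) ≤
            2 * ShortIntervals.con D * (m : ℝ) ^ (2 + 1 / (D : ℝ)) * (κ / m ^ 3) :=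
          mul_le_mul_of_nonneg_right hc (by positivity)
        refine h2.trans (le_of_eq ?_)
        have h3 : (m : ℝ) ^ (-(1 - 1 / (D : ℝ))) = (m : ℝ) ^ (2 + 1 / (D : ℝ)) / m ^ 3 := by
          rw [show (-(1 - 1 / (D : ℝ))) = (2 + 1 / (D : ℝ)) - (3 : ℕ) by push_cast; ring,
            Real.rpow_sub hm0, Real.rpow_natCast]
        rw [h3]
        ring

theorem seq {Ω : Type*} [MeasurableSpace Ω] (μ : Measure Ω) (F : ℕ → MvPolynomial (Fin 2) ℤ)
    (D : ℕ → ℕ) (hD : ∀ n, 4 ≤ D n) (hF : ∀ n, (F n).totalDegree ≤ D n) (ξ : ℕ → Ω → ℤ × ℤ × ℤ)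
    (s0 t0 c0 : ℕ → ℤ) (m : ℕ → ℕ) (hm : ∀ n, 1 ≤ m n) (κ : ℕ → ℝ) (hκ : ∀ n, 0 ≤ κ n)
    (hξ : ∀ n, Noise μ (ξ n) (s0 n) (t0 n) (c0 n) (m n) (κ n))
    (hs : Summable fun n => 2 * ShortIntervals.con (D n) * κ n *
      (m n : ℝ) ^ (-(1 - 1 / (D n : ℝ)))) :
    ∀ᵐ ω ∂μ, ∀ᶠ n in atTop, ¬ Far (D n) (pert (F n) (D n) (ξ n ω).1 (ξ n ω).2.1 (ξ n ω).2.2) := by
  apply ae_eventually_notMem
  refine ne_top_of_le_ne_top ?_ (ENNReal.tsum_le_tsum fun n =>
    prob μ (F n) (D n) (hD n) (hF n) (ξ n) (s0 n) (t0 n) (c0 n) (m n) (hm n) (κ n) (hκ n) (hξ n))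
  rw [← ENNReal.ofReal_tsum_of_nonneg _ hs]
  · exact ENNReal.ofReal_ne_top
  · intro n
    have := hκ n
    positivity

theorem all {Ω : Type*} [MeasurableSpace Ω] (μ : Measure Ω) (ξ : ℕ → Ω → ℤ × ℤ × ℤ)
    (s0 t0 c0 : ℕ → ℤ) (m : ℕ → ℕ) (hm : ∀ n, 1 ≤ m n) (κ : ℝ) (hκ : 0 ≤ κ)
    (hξ : ∀ n, Noise μ (ξ n) (s0 n) (t0 n) (c0 n) (m n) κ)
    (hs : Summable fun n => (m n : ℝ) ^ (-(3 / 4) : ℝ)) :
    ∀ᵐ ω ∂μ, ∀ (F : MvPolynomial (Fin 2) ℤ) (D : ℕ), 4 ≤ D → F.totalDegree ≤ D →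
      ∀ᶠ n in atTop, ¬ Far D (pert F D (ξ n ω).1 (ξ n ω).2.1 (ξ n ω).2.2) := by
  have hcount : Countable (MvPolynomial (Fin 2) ℤ) := by
    rw [← Cardinal.mk_le_aleph0_iff]
    exact (MvPolynomial.cardinalMk_le_max).trans (by simp)
  rw [ae_all_iff]
  intro F
  rw [ae_all_iff]
  intro D
  by_cases hD : 4 ≤ D
  · by_cases hF : F.totalDegree ≤ D
    · have h := seq μ (fun _ => F) (fun _ => D) (fun _ => hD) (fun _ => hF) ξ s0 t0 c0 m hm
        (fun _ => κ) (fun _ => hκ) hξ (by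
          refine Summable.of_nonneg_of_le (fun n => by positivity) (fun n => ?_)
            (hs.mul_left (2 * ShortIntervals.con D * κ))
          apply mul_le_mul_of_nonneg_left (ShortIntervals.rpow_deg_le _ (hm n) _ hD) (by positivity))
      filter_upwards [h] with ω hω _ _
      exact hω
    · exact Eventually.of_forall fun ω _ h => absurd h hF
  · exact Eventually.of_forall fun ω h => absurd h hD

universe u

/-- Part 1: for EVERY `F ∈ ℤ[x, y]` of degree at most `D`, `D ≥ 4`, at most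
`2 K m ^ (2 + 1 / D)`, `K = 2 * 10 ^ 9 * 36 ^ D * (D + 1) ^ 10`, of the `m ^ 3` polynomials
`F + s x ^ D + t y ^ D + c`, `(s, t, c)` in a box of side `m` in any position, have an integer zero
`(x, y)` with `max |x| |y|` larger than the power `10 ^ 17 * 1296 ^ D * (D + 1) ^ 15` of
`(D + 1)` times the sum of the absolute values of its coefficients. Part 2: the probability for
random `(s, t, c)`. Part 3: for ANY sequence of polynomials and random changes of these three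
coefficients with a convergent sum of the probabilities (no independence), almost surely all but
finitely many of the changed polynomials have no such zero. Part 4: if
`∑ (m n) ^ (-3 / 4) < ∞`, then almost surely this holds for all polynomials at once. -/
theorem result :
    (∀ (F : MvPolynomial (Fin 2) ℤ) (D : ℕ), 4 ≤ D → F.totalDegree ≤ D →
      ∀ (s0 t0 c0 : ℤ) (m : ℕ), 1 ≤ m →
      (({p : ℤ × ℤ × ℤ | (s0 ≤ p.1 ∧ p.1 < s0 + m) ∧ (t0 ≤ p.2.1 ∧ p.2.1 < t0 + m) ∧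
        (c0 ≤ p.2.2 ∧ p.2.2 < c0 + m) ∧ Far D (pert F D p.1 p.2.1 p.2.2)}.ncard : ℕ) : ℝ) ≤
        2 * ShortIntervals.con D * (m : ℝ) ^ (2 + 1 / (D : ℝ))) ∧
    (∀ (Ω : Type u) [MeasurableSpace Ω] (μ : Measure Ω) (F : MvPolynomial (Fin 2) ℤ) (D : ℕ)
      (ξ : Ω → ℤ × ℤ × ℤ) (s0 t0 c0 : ℤ) (m : ℕ) (κ : ℝ), 4 ≤ D → F.totalDegree ≤ D → 1 ≤ m →
      0 ≤ κ → Noise μ ξ s0 t0 c0 m κ →
      μ {ω | Far D (pert F D (ξ ω).1 (ξ ω).2.1 (ξ ω).2.2)} ≤
        ENNReal.ofReal (2 * ShortIntervals.con D * κ * (m : ℝ) ^ (-(1 - 1 / (D : ℝ))))) ∧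
    (∀ (Ω : Type u) [MeasurableSpace Ω] (μ : Measure Ω) (F : ℕ → MvPolynomial (Fin 2) ℤ)
      (D : ℕ → ℕ) (ξ : ℕ → Ω → ℤ × ℤ × ℤ) (s0 t0 c0 : ℕ → ℤ) (m : ℕ → ℕ) (κ : ℕ → ℝ),
      (∀ n, 4 ≤ D n) → (∀ n, (F n).totalDegree ≤ D n) → (∀ n, 1 ≤ m n) → (∀ n, 0 ≤ κ n) →
      (∀ n, Noise μ (ξ n) (s0 n) (t0 n) (c0 n) (m n) (κ n)) →
      (Summable fun n => 2 * ShortIntervals.con (D n) * κ n *
        (m n : ℝ) ^ (-(1 - 1 / (D n : ℝ)))) →
      ∀ᵐ ω ∂μ, ∀ᶠ n in atTop,
        ¬ Far (D n) (pert (F n) (D n) (ξ n ω).1 (ξ n ω).2.1 (ξ n ω).2.2)) ∧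
    (∀ (Ω : Type u) [MeasurableSpace Ω] (μ : Measure Ω) (ξ : ℕ → Ω → ℤ × ℤ × ℤ)
      (s0 t0 c0 : ℕ → ℤ) (m : ℕ → ℕ) (κ : ℝ), (∀ n, 1 ≤ m n) → 0 ≤ κ →
      (∀ n, Noise μ (ξ n) (s0 n) (t0 n) (c0 n) (m n) κ) →
      (Summable fun n => (m n : ℝ) ^ (-(3 / 4) : ℝ)) →
      ∀ᵐ ω ∂μ, ∀ (F : MvPolynomial (Fin 2) ℤ) (D : ℕ), 4 ≤ D → F.totalDegree ≤ D →
        ∀ᶠ n in atTop, ¬ Far D (pert F D (ξ n ω).1 (ξ n ω).2.1 (ξ n ω).2.2)) := by
  classical
  refine ⟨?_, fun _ _ μ F D ξ s0 t0 c0 m κ hD hF hm hκ hξ =>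
      prob μ F D hD hF ξ s0 t0 c0 m hm κ hκ hξ,
    fun _ _ μ F D ξ s0 t0 c0 m κ hD hF hm hκ hξ hs => seq μ F D hD hF ξ s0 t0 c0 m hm κ hκ hξ hs,
    fun _ _ μ ξ s0 t0 c0 m κ hm hκ hξ hs => all μ ξ s0 t0 c0 m hm κ hκ hξ hs⟩
  intro F D hD hF s0 t0 c0 m hm
  refine le_trans ?_ (count_box F D hD hF s0 t0 c0 m hm)
  have h : {p : ℤ × ℤ × ℤ | (s0 ≤ p.1 ∧ p.1 < s0 + m) ∧ (t0 ≤ p.2.1 ∧ p.2.1 < t0 + m) ∧
      (c0 ≤ p.2.2 ∧ p.2.2 < c0 + m) ∧ Far D (pert F D p.1 p.2.1 p.2.2)} =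
      (((Finset.Ico s0 (s0 + m) ×ˢ (Finset.Ico t0 (t0 + m) ×ˢ Finset.Ico c0 (c0 + m))).filter
        (fun p => Far D (pert F D p.1 p.2.1 p.2.2)) : Finset (ℤ × ℤ × ℤ)) : Set (ℤ × ℤ × ℤ)) := by
    ext p
    rw [Finset.mem_coe, Finset.mem_filter, Finset.mem_product, Finset.mem_product, Finset.mem_Ico,
      Finset.mem_Ico, Finset.mem_Ico]
    exact ⟨fun h => ⟨⟨h.1, h.2.1, h.2.2.1⟩, h.2.2.2⟩, fun h => ⟨h.1.1, h.1.2.1, h.1.2.2, h.2⟩⟩
  rw [h, Set.ncard_coe_finset]

end Pool.Agent.Results.MP_2d259b_nt.EveryPolynomial
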