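import Pool.Agent.J4H84.QP.Blocks
import Pool.Agent.J4H84.QP.Periodic

/-!
# Integer points whose digits are periodic outside few short intervals

Let `f ∈ ℤ[x_1, …, x_n]` (in the problem `n = 2`) have degree at most `d` and coefficients of total
absolute value at most `A`. We bound all integer zeros of `f` that lie on no nonconstant polynomial
curve of zeros of `f` (all zeros, if `f` has finitely many) and whose digits in some base `b ≥ 2`
have some period `k` outside `r` intervals of length `h`: explicitly, and on the logarithmic scale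
linearly in `h` and `k`. So the digits of a large zero have no period outside `r` intervals which
contain a small proportion `ε(n, d, r)` of all places. The same for zeros that are sums of few
blocks, each of its own period, and for all zeros a multiple of which has few digits.
-/

set_option autoImplicit false

namespace Pool.Agent.Results.MP_2d259b_nt.QuasiPeriodicZeros

open Polynomial

/-- the zero `x` of `f` lies on a nonconstant polynomial curve of zeros of `f` -/
def OnCurve {n : ℕ} (f : MvPolynomial (Fin n) ℤ) (x : Fin n → ℤ) : Prop :=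
  ∃ φ : Fin n → ℤ[X], MvPolynomial.aeval φ f = 0 ∧ (∀ i, (φ i).eval 0 = x i) ∧
    ∃ i, (φ i).natDegree ≠ 0

/-- `x` is a combination of `r` powers of `b`, with integral coefficients of absolute value at
most `B`; the powers are the same for all coordinates -/
def Sparse {n : ℕ} (b r B : ℕ) (x : Fin n → ℤ) : Prop :=
  ∃ (e : Fin r → ℕ) (c : Fin n → Fin r → ℤ), (∀ i j, |c i j| ≤ B) ∧
    ∀ i, x i = ∑ j, c i j * (b : ℤ) ^ (e j)

/-- there are `r` intervals of `h` places each such that at every other place `t ≥ k`, up to the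
leading digit of `|x_i|`, the base `b` digits of `|x_i|` at the places `t` and `t - k` are equal -/
def Periodic {n : ℕ} (b k r h : ℕ) (x : Fin n → ℤ) : Prop :=
  ∃ e : Fin r → ℕ, ∀ i t, k ≤ t → b ^ t ≤ (x i).natAbs →
    (x i).natAbs / b ^ t % b ≠ (x i).natAbs / b ^ (t - k) % b → ∃ j, e j ≤ t ∧ t < e j + h

/-- `x` is a sum of `s` blocks: the `j`-th block consists of `l_j` copies of an integral vector
with coordinates of absolute value at most `U`, at distances `k_j ≤ K` -/
def Blocks {n : ℕ} (b s K U : ℕ) (x : Fin n → ℤ) : Prop :=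
  ∃ (e k l : Fin s → ℕ) (u : Fin n → Fin s → ℤ), (∀ j, 1 ≤ k j ∧ k j ≤ K) ∧
    (∀ i j, |u i j| ≤ U) ∧
    ∀ i, x i = ∑ j, u i j * (b : ℤ) ^ (e j) * ∑ t ∈ Finset.range (l j), (b : ℤ) ^ (k j * t)

open Pool.Agent.J4H84.QP in
theorem result (n d A : ℕ) (hd : 1 ≤ d) (hA : 1 ≤ A) (f : MvPolynomial (Fin n) ℤ)
    (hf : f.totalDegree ≤ d) (hfA : ∑ m ∈ f.support, |f.coeff m| ≤ A) :
    ({x : Fin n → ℤ | MvPolynomial.eval x f = 0}.Finite → ∀ x, ¬ OnCurve f x) ∧
    ∀ x : Fin n → ℤ, MvPolynomial.eval x f = 0 → ¬ OnCurve f x →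
      (∀ b q r B : ℕ, 2 ≤ b → 1 ≤ q → Sparse b r B (fun i => q * x i) →
        ∀ i, q * |x i| ≤ (((1 + A) * q * (r * B)) ^ ((4 * d) ^ (r + 1) + 1) : ℕ)) ∧
      (∀ b k r h : ℕ, 2 ≤ b → 1 ≤ k → Periodic b k r h x →
        ∀ i, |x i| ≤ (((1 + A) * ((r + n + 1) * b ^ (h + 2 * k))) ^
          ((4 * d) ^ (r + n + 2) + 1) : ℕ)) ∧
      (∀ b s K U : ℕ, 2 ≤ b → Blocks b s K U x →
        ∀ i, |x i| ≤ (((1 + A) * (2 * s * U * b ^ (2 * s * K))) ^
          ((4 * d) ^ (2 * s + 1) + 1) : ℕ)) := by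
  refine ⟨fun hfin x h => ?_, fun x hx hcur => ?_⟩
  · obtain ⟨φ, h1, -, i, hi⟩ := h
    exact hi (no_curve f hfin φ h1 i)
  have key : ∀ b q r B : ℕ, 2 ≤ b → 1 ≤ q → Sparse b r B (fun i => q * x i) →
      ∀ i, q * |x i| ≤ (((1 + A) * q * (r * B)) ^ ((4 * d) ^ (r + 1) + 1) : ℕ) := by
    intro b q r B hb hq hS i
    obtain ⟨e, c, hc, hrep⟩ := hS
    rcases dich f d hd hf A hA hfA b q hb hq B e c hc x hrep hx with h | h
    · exact absurd h hcur
    · exact (h i).trans (by exact_mod_cast bound_shape d r B A q hd hq)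
  have abs_le : ∀ (q N : ℕ) (i : Fin n), 1 ≤ q → (q : ℤ) * |x i| ≤ N → |x i| ≤ N := by
    intro q N i hq h
    have hq1 : (1 : ℤ) ≤ q := by exact_mod_cast hq
    nlinarith [abs_nonneg (x i)]
  refine ⟨key, fun b k r h hb hk hP i => ?_, fun b s K U hb hB i => ?_⟩
  · obtain ⟨e₀, he₀⟩ := hP
    obtain ⟨e, he⟩ := periodic_cover b k r h hb x e₀ he₀
    have hbk : 2 ≤ b ^ k := hb.trans (Nat.le_self_pow (by omega) b)
    choose c hc1 hc2 using fun i => cover_int b k (h + k) (r + (n + 1)) (x i) hb e (he i)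
    have h1 := key b (b ^ k - 1) (r + (n + 1)) (b ^ (h + k)) hb (by omega) ⟨e, c, fun i j => by
      push_cast
      exact hc1 i j, fun i => by
      rw [Nat.cast_sub (by omega)]
      push_cast
      exact hc2 i⟩ i
    refine (abs_le _ _ i (by omega) h1).trans ?_
    have h2 : (1 + A) * (b ^ k - 1) * ((r + (n + 1)) * b ^ (h + k)) ≤
        (1 + A) * ((r + n + 1) * b ^ (h + 2 * k)) := by
      calc (1 + A) * (b ^ k - 1) * ((r + (n + 1)) * b ^ (h + k))
          ≤ (1 + A) * b ^ k * ((r + (n + 1)) * b ^ (h + k)) :=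
            Nat.mul_le_mul_right _ (Nat.mul_le_mul_left _ (Nat.sub_le _ _))
        _ = (1 + A) * ((r + n + 1) * b ^ (h + 2 * k)) := by ring
    have h3 : r + (n + 1) + 1 = r + n + 2 := by ring
    rw [h3]
    exact_mod_cast Nat.pow_le_pow_left h2 _
  · obtain ⟨e, k, l, u, hk, hu, ha⟩ := hB
    obtain ⟨q, E, c, hq1, hq2, hc, hrep⟩ := blocks_rep b s K U hb e k l u hk hu x ha
    have h1 := key b q (s + s) (U * b ^ (s * K)) hb hq1 ⟨E, c, hc, hrep⟩ i
    refine (abs_le _ _ i hq1 h1).trans ?_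
    have h2 : (1 + A) * q * ((s + s) * (U * b ^ (s * K))) ≤
        (1 + A) * (2 * s * U * b ^ (2 * s * K)) := by
      calc (1 + A) * q * ((s + s) * (U * b ^ (s * K)))
          ≤ (1 + A) * b ^ (s * K) * ((s + s) * (U * b ^ (s * K))) :=
            Nat.mul_le_mul_right _ (Nat.mul_le_mul_left _ hq2)
        _ = (1 + A) * (2 * s * U * b ^ (2 * s * K)) := by ring
    have h3 : s + s + 1 = 2 * s + 1 := by ring
    rw [h3]
    exact_mod_cast Nat.pow_le_pow_left h2 _

end Pool.Agent.Results.MP_2d259b_nt.QuasiPeriodicZeros
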