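import Pool.Agent.Results.MP_2d259b_nt.FibresOffPolynomialValues
import Pool.Agent.J4H48.SI.Val

/-!
# Effective bounds for the integer points of `F(x, y) = t`: short intervals and random `t`

The starting result `FibresOffPolynomialValues` gives an effective bound for the integer points of
the curves `F(x, y) = t` for all `t` off the values of boundedly many polynomials of degree `d`.
Here: every interval of length `m`, wherever it lies, contains at most `C(d) m ^ (1 / d)` of the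
other `t`, uniformly in `F`. So a random change of the constant coefficient alone makes any
polynomial of degree `d ≥ 4` with squarefree leading form effectively solvable with probability
`1 - O(m ^ (-(1 - 1 / d)))`; for arbitrary sequences of such polynomials it happens almost surely
for all but finitely many members, as soon as `∑ m_n ^ (-3 / 4) < ∞`.
-/

set_option autoImplicit false

namespace Pool.Agent.Results.MP_2d259b_nt.ShortIntervals

open MeasureTheory Filter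

/-- `F` has degree at least `4` and its leading form is squarefree over `ℚ` -/
def Regular (F : MvPolynomial (Fin 2) ℤ) : Prop :=
  4 ≤ F.totalDegree ∧ Squarefree (MvPolynomial.map (Int.castRingHom ℚ)
    (MvPolynomial.homogeneousComponent F.totalDegree F))

/-- the bound `((d + 1) (h(F) + |t|)) ^ (10 ^ 17 * 1296 ^ d * (d + 1) ^ 15)` for the integer points
of the curve `F(x, y) = t`; here `d` is the degree of `F` and `h(F)` is the sum of the absolute
values of the coefficients of `F` -/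
noncomputable def bound (F : MvPolynomial (Fin 2) ℤ) (t : ℤ) : ℕ :=
  ((F.totalDegree + 1) * (∑ m ∈ F.support, (F.coeff m).natAbs + t.natAbs)) ^
    (10 ^ 17 * 1296 ^ F.totalDegree * (F.totalDegree + 1) ^ 15)

/-- the curve `F(x, y) = t` has an integer point beyond the bound -/
def Large (F : MvPolynomial (Fin 2) ℤ) (t : ℤ) : Prop :=
  ∃ x y : ℤ, MvPolynomial.eval ![x, y] F = t ∧ bound F t < max x.natAbs y.natAbs

/-- the constant `2 * 10 ^ 9 * 36 ^ d * (d + 1) ^ 10` -/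
def con (d : ℕ) : ℕ := 2 * 10 ^ 9 * 36 ^ d * (d + 1) ^ 10

theorem finite_set (F : MvPolynomial (Fin 2) ℤ) (c : ℤ) (m : ℕ) :
    {t : ℤ | c ≤ t ∧ t < c + m ∧ Large F t}.Finite :=
  (Set.finite_Ico c (c + m)).subset (fun _ ht => ⟨ht.1, ht.2.1⟩)

/-- the count in an interval of length `m` -/
theorem count (F : MvPolynomial (Fin 2) ℤ) (hF : Regular F) (c : ℤ) (m : ℕ) (hm : 1 ≤ m) :
    (({t : ℤ | c ≤ t ∧ t < c + m ∧ Large F t}.ncard : ℕ) : ℝ)
      ≤ con F.totalDegree * (m : ℝ) ^ (1 / (F.totalDegree : ℝ)) := by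
  classical
  obtain ⟨⟨S, hS, hU, hout⟩, -⟩ := FibresOffPolynomialValues.result F.totalDegree hF.1 F rfl hF.2
  have hfin := finite_set F c m
  rw [Set.ncard_eq_toFinset_card _ hfin]
  set V := hfin.toFinset with hV
  have hmem : ∀ t ∈ V, c ≤ t ∧ t < c + m ∧ Large F t := fun t ht => by
    rw [hV, Set.Finite.mem_toFinset] at ht
    exact ht
  have hsub : V ⊆ S.biUnion fun U => V.filter fun t => ∃ k : ℤ, U.eval k = t := by
    intro t ht
    rw [Finset.mem_biUnion]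
    by_contra hcon
    push Not at hcon
    have h1 : ∀ U ∈ S, ∀ k : ℤ, U.eval k ≠ t := by
      intro U hUS k hk
      exact hcon U hUS (Finset.mem_filter.2 ⟨ht, k, hk⟩)
    obtain ⟨x, y, hxy, hlt⟩ := (hmem t ht).2.2
    have h2 := hout t h1 x y hxy
    unfold bound at hlt
    omega
  have hcard : V.card ≤ ∑ U ∈ S, (V.filter fun t => ∃ k : ℤ, U.eval k = t).card :=
    (Finset.card_le_card hsub).trans Finset.card_biUnion_le
  have hone : ∀ U ∈ S, (((V.filter fun t => ∃ k : ℤ, U.eval k = t).card : ℕ) : ℝ)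
      ≤ 2 * ((F.totalDegree : ℝ) + 1) ^ 2 * (m : ℝ) ^ (1 / (F.totalDegree : ℝ)) := by
    intro U hUS
    have h := Pool.Agent.J4H48.SI.few_values U F.totalDegree (by have := hF.1; omega) (hU U hUS) c m hm
      (V.filter fun t => ∃ k : ℤ, U.eval k = t) (by
        intro t ht
        rw [Finset.mem_filter] at ht
        have h1 := hmem t ht.1
        exact ⟨⟨h1.1, h1.2.1⟩, ht.2⟩)
    simpa using h
  have hm0 : (0 : ℝ) ≤ (m : ℝ) ^ (1 / (F.totalDegree : ℝ)) := Real.rpow_nonneg (Nat.cast_nonneg m) _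
  have hScard : ((S.card : ℕ) : ℝ) ≤ 10 ^ 9 * 36 ^ F.totalDegree * ((F.totalDegree : ℝ) + 1) ^ 8 := by
    exact_mod_cast hS
  calc ((V.card : ℕ) : ℝ)
      ≤ ∑ U ∈ S, (((V.filter fun t => ∃ k : ℤ, U.eval k = t).card : ℕ) : ℝ) := by
        exact_mod_cast hcard
    _ ≤ ∑ _U ∈ S, 2 * ((F.totalDegree : ℝ) + 1) ^ 2 * (m : ℝ) ^ (1 / (F.totalDegree : ℝ)) :=
        Finset.sum_le_sum hone
    _ = S.card * (2 * ((F.totalDegree : ℝ) + 1) ^ 2 * (m : ℝ) ^ (1 / (F.totalDegree : ℝ))) := by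
        rw [Finset.sum_const, nsmul_eq_mul]
    _ ≤ (10 ^ 9 * 36 ^ F.totalDegree * ((F.totalDegree : ℝ) + 1) ^ 8) *
        (2 * ((F.totalDegree : ℝ) + 1) ^ 2 * (m : ℝ) ^ (1 / (F.totalDegree : ℝ))) := by
        apply mul_le_mul_of_nonneg_right hScard (by positivity)
    _ = con F.totalDegree * (m : ℝ) ^ (1 / (F.totalDegree : ℝ)) := by
        unfold con
        push_cast
        ring

/-- the noise `ξ` takes values in `[c, c + m)`, each value with probability at most `κ / m` -/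
def Noise {Ω : Type*} [MeasurableSpace Ω] (μ : Measure Ω) (ξ : Ω → ℤ) (c : ℤ) (m : ℕ) (κ : ℝ) :
    Prop :=
  (∀ᵐ ω ∂μ, c ≤ ξ ω ∧ ξ ω < c + m) ∧ ∀ r : ℤ, μ {ω | ξ ω = r} ≤ ENNReal.ofReal (κ / m)

/-- the probability of a large point -/
theorem prob {Ω : Type*} [MeasurableSpace Ω] (μ : Measure Ω) (F : MvPolynomial (Fin 2) ℤ)
    (hF : Regular F) (ξ : Ω → ℤ) (c : ℤ) (m : ℕ) (hm : 1 ≤ m) (κ : ℝ) (hκ : 0 ≤ κ)
    (hξ : Noise μ ξ c m κ) :
    μ {ω | Large F (ξ ω)} ≤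
      ENNReal.ofReal (con F.totalDegree * κ * (m : ℝ) ^ (-(1 - 1 / (F.totalDegree : ℝ)))) := by
  classical
  have hfin := finite_set F c m
  have hc := count F hF c m hm
  rw [Set.ncard_eq_toFinset_card _ hfin] at hc
  set V := hfin.toFinset with hV
  have hm0 : (0 : ℝ) < m := by exact_mod_cast hm
  have h1 : μ {ω | Large F (ξ ω)} ≤ μ (⋃ r ∈ V, {ω | ξ ω = r}) := by
    apply measure_mono_ae
    filter_upwards [hξ.1] with ω hω hL
    have hL' : Large F (ξ ω) := hL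
    have : ξ ω ∈ V := by
      rw [hV, Set.Finite.mem_toFinset]
      exact ⟨hω.1, hω.2, hL'⟩
    show ω ∈ ⋃ r ∈ V, {ω | ξ ω = r}
    simp only [Set.mem_iUnion, Set.mem_ofPred_eq, exists_prop]
    exact ⟨ξ ω, this, rfl⟩
  refine h1.trans ((measure_biUnion_finset_le _ _).trans ?_)
  calc ∑ r ∈ V, μ {ω | ξ ω = r} ≤ ∑ _r ∈ V, ENNReal.ofReal (κ / m) :=
        Finset.sum_le_sum fun r _ => hξ.2 r
    _ = ENNReal.ofReal (V.card * (κ / m)) := by
        rw [Finset.sum_const, nsmul_eq_mul, ENNReal.ofReal_mul (Nat.cast_nonneg _),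
          ENNReal.ofReal_natCast]
    _ ≤ _ := by
        apply ENNReal.ofReal_le_ofReal
        have h2 : (V.card : ℝ) * (κ / m)
            ≤ con F.totalDegree * (m : ℝ) ^ (1 / (F.totalDegree : ℝ)) * (κ / m) :=
          mul_le_mul_of_nonneg_right hc (by positivity)
        refine h2.trans (le_of_eq ?_)
        have h3 : (m : ℝ) ^ (-(1 - 1 / (F.totalDegree : ℝ)))
            = (m : ℝ) ^ (1 / (F.totalDegree : ℝ)) / m := by
          rw [show (-(1 - 1 / (F.totalDegree : ℝ))) = 1 / (F.totalDegree : ℝ) - 1 by ring,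
            Real.rpow_sub hm0, Real.rpow_one]
        rw [h3]
        ring

/-- Borel–Cantelli -/
theorem seq {Ω : Type*} [MeasurableSpace Ω] (μ : Measure Ω) (F : ℕ → MvPolynomial (Fin 2) ℤ)
    (hF : ∀ n, Regular (F n)) (ξ : ℕ → Ω → ℤ) (c : ℕ → ℤ) (m : ℕ → ℕ) (hm : ∀ n, 1 ≤ m n)
    (κ : ℕ → ℝ) (hκ : ∀ n, 0 ≤ κ n) (hξ : ∀ n, Noise μ (ξ n) (c n) (m n) (κ n))
    (hs : Summable fun n => con (F n).totalDegree * κ n *
      (m n : ℝ) ^ (-(1 - 1 / ((F n).totalDegree : ℝ)))) :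
    ∀ᵐ ω ∂μ, ∀ᶠ n in atTop, ¬ Large (F n) (ξ n ω) := by
  apply ae_eventually_notMem
  refine ne_top_of_le_ne_top ?_ (ENNReal.tsum_le_tsum fun n =>
    prob μ (F n) (hF n) (ξ n) (c n) (m n) (hm n) (κ n) (hκ n) (hξ n))
  rw [← ENNReal.ofReal_tsum_of_nonneg _ hs]
  · exact ENNReal.ofReal_ne_top
  · intro n
    have := hκ n
    positivity

theorem rpow_deg_le (m : ℕ) (hm : 1 ≤ m) (d : ℕ) (hd : 4 ≤ d) :
    (m : ℝ) ^ (-(1 - 1 / (d : ℝ))) ≤ (m : ℝ) ^ (-(3 / 4) : ℝ) := by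
  apply Real.rpow_le_rpow_of_exponent_le (by exact_mod_cast hm)
  have h1 : (1 : ℝ) / d ≤ 1 / 4 := by
    apply one_div_le_one_div_of_le (by norm_num)
    exact_mod_cast hd
  linarith

theorem gap (F : MvPolynomial (Fin 2) ℤ) (hF : Regular F) (c : ℤ) :
    ∃ t : ℤ, c ≤ t ∧ t < c + (con F.totalDegree : ℤ) ^ 2 ∧ ¬ Large F t := by
  by_contra hcon
  push Not at hcon
  obtain ⟨K, hK⟩ : ∃ K, K = con F.totalDegree := ⟨_, rfl⟩
  have hK1 : 2 ≤ K := by
    rw [hK]
    unfold con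
    have h1 : 1 ≤ 36 ^ F.totalDegree * (F.totalDegree + 1) ^ 10 := Nat.one_le_iff_ne_zero.2 (by positivity)
    calc 2 ≤ 2 * 10 ^ 9 * 1 := by norm_num
      _ ≤ 2 * 10 ^ 9 * (36 ^ F.totalDegree * (F.totalDegree + 1) ^ 10) := Nat.mul_le_mul_left _ h1
      _ = _ := by ring
  rw [← hK] at hcon
  have h := count F hF c (K ^ 2) (Nat.one_le_iff_ne_zero.2 (by positivity))
  have hset : {t : ℤ | c ≤ t ∧ t < c + (K ^ 2 : ℕ) ∧ Large F t} = ↑(Finset.Ico c (c + (K : ℤ) ^ 2)) := by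
    ext t
    simp only [Finset.coe_Ico, Set.mem_Ico]
    constructor
    · rintro ⟨h1, h2, -⟩
      exact ⟨h1, by exact_mod_cast h2⟩
    · rintro ⟨h1, h2⟩
      exact ⟨h1, by exact_mod_cast h2, hcon t h1 h2⟩
  rw [hset, Set.ncard_coe_finset, Int.card_Ico, ← hK] at h
  have h2 : (c + (K : ℤ) ^ 2 - c).toNat = K ^ 2 := by
    have : c + (K : ℤ) ^ 2 - c = ((K ^ 2 : ℕ) : ℤ) := by push_cast; ring
    rw [this, Int.toNat_natCast]
  rw [h2] at h
  have hKR : (2 : ℝ) ≤ K := by exact_mod_cast hK1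
  have h3 : ((K ^ 2 : ℕ) : ℝ) ^ (1 / (F.totalDegree : ℝ)) ≤ (K : ℝ) ^ (1 / 2 : ℝ) := by
    have h4 : (1 : ℝ) / F.totalDegree ≤ 1 / 4 := by
      apply one_div_le_one_div_of_le (by norm_num)
      exact_mod_cast hF.1
    calc ((K ^ 2 : ℕ) : ℝ) ^ (1 / (F.totalDegree : ℝ)) ≤ ((K ^ 2 : ℕ) : ℝ) ^ (1 / 4 : ℝ) :=
          Real.rpow_le_rpow_of_exponent_le
            (by exact_mod_cast Nat.one_le_iff_ne_zero.2 (by positivity)) h4
      _ = (K : ℝ) ^ (1 / 2 : ℝ) := by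
          rw [Nat.cast_pow, ← Real.rpow_natCast, ← Real.rpow_mul (Nat.cast_nonneg K)]
          norm_num
  have h5 : (K : ℝ) ^ (1 / 2 : ℝ) < K := by
    calc (K : ℝ) ^ (1 / 2 : ℝ) < (K : ℝ) ^ (1 : ℝ) :=
          Real.rpow_lt_rpow_of_exponent_lt (by linarith) (by norm_num)
      _ = K := Real.rpow_one _
  have h6 : ((K ^ 2 : ℕ) : ℝ) = K * K := by push_cast; ring
  rw [h6] at h
  have h7 : (K : ℝ) * ((K ^ 2 : ℕ) : ℝ) ^ (1 / (F.totalDegree : ℝ)) < K * K := by
    apply mul_lt_mul_of_pos_left (lt_of_le_of_lt h3 h5) (by linarith)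
  rw [h6] at h7
  linarith

instance : Countable (MvPolynomial (Fin 2) ℤ) := by
  rw [← Cardinal.mk_le_aleph0_iff]
  exact (MvPolynomial.cardinalMk_le_max).trans (by simp)

/-- simultaneously for all polynomials -/
theorem all {Ω : Type*} [MeasurableSpace Ω] (μ : Measure Ω) (ξ : ℕ → Ω → ℤ) (c : ℕ → ℤ)
    (m : ℕ → ℕ) (hm : ∀ n, 1 ≤ m n) (κ : ℝ) (hκ : 0 ≤ κ)
    (hξ : ∀ n, Noise μ (ξ n) (c n) (m n) κ)
    (hs : Summable fun n => (m n : ℝ) ^ (-(3 / 4) : ℝ)) :
    ∀ᵐ ω ∂μ, ∀ F, Regular F → ∀ᶠ n in atTop, ¬ Large F (ξ n ω) := by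
  rw [ae_all_iff]
  intro F
  by_cases hF : Regular F
  · have h := seq μ (fun _ => F) (fun _ => hF) ξ c m hm (fun _ => κ) (fun _ => hκ) hξ (by
      refine Summable.of_nonneg_of_le (fun n => by positivity) (fun n => ?_)
        (hs.mul_left (con F.totalDegree * κ))
      apply mul_le_mul_of_nonneg_left (rpow_deg_le _ (hm n) _ hF.1) (by positivity))
    filter_upwards [h] with ω hω _
    exact hω
  · exact Eventually.of_forall fun ω h => absurd h hF

universe u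

/-- Part 1: every interval `[c, c + m)` contains at most `con d * m ^ (1 / d)` integers `t` such that
`F(x, y) = t` has an integer point beyond the bound. Part 2: among any `(con d) ^ 2` consecutive
integers `t` there is one such that all integer points of `F(x, y) = t` satisfy the bound.
Part 3: for a random `t` in `[c, c + m)` with all probabilities at most `κ / m` the probability of
a point beyond the bound is at most `con d * κ * m ^ (-(1 - 1 / d))`. Part 4: for ANY sequence `F n`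
of such polynomials and any random `ξ n` in `[c n, c n + m n)` (no independence) with a convergent
sum of these numbers, almost surely, for all but finitely many `n`, all integer points of
`F n (x, y) = ξ n` satisfy the bound. Part 5: if `∑ (m n) ^ (-3 / 4) < ∞` then almost surely, for all
such polynomials `F` at once and all but finitely many `n`, all integer points of
`F(x, y) = ξ n` satisfy the bound. -/
theorem result :
    (∀ F, Regular F → ∀ (c : ℤ) (m : ℕ), 1 ≤ m →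
      (({t : ℤ | c ≤ t ∧ t < c + m ∧ Large F t}.ncard : ℕ) : ℝ)
        ≤ con F.totalDegree * (m : ℝ) ^ (1 / (F.totalDegree : ℝ))) ∧
    (∀ F, Regular F → ∀ c : ℤ, ∃ t : ℤ, c ≤ t ∧ t < c + (con F.totalDegree : ℤ) ^ 2 ∧
      ¬ Large F t) ∧
    (∀ (Ω : Type u) [MeasurableSpace Ω] (μ : Measure Ω) (F : MvPolynomial (Fin 2) ℤ) (ξ : Ω → ℤ)
      (c : ℤ) (m : ℕ) (κ : ℝ), Regular F → 1 ≤ m → 0 ≤ κ → Noise μ ξ c m κ →
      μ {ω | Large F (ξ ω)} ≤
        ENNReal.ofReal (con F.totalDegree * κ * (m : ℝ) ^ (-(1 - 1 / (F.totalDegree : ℝ))))) ∧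
    (∀ (Ω : Type u) [MeasurableSpace Ω] (μ : Measure Ω) (F : ℕ → MvPolynomial (Fin 2) ℤ)
      (ξ : ℕ → Ω → ℤ) (c : ℕ → ℤ) (m : ℕ → ℕ) (κ : ℕ → ℝ), (∀ n, Regular (F n)) →
      (∀ n, 1 ≤ m n) → (∀ n, 0 ≤ κ n) → (∀ n, Noise μ (ξ n) (c n) (m n) (κ n)) →
      (Summable fun n => con (F n).totalDegree * κ n *
        (m n : ℝ) ^ (-(1 - 1 / ((F n).totalDegree : ℝ)))) →
      ∀ᵐ ω ∂μ, ∀ᶠ n in atTop, ¬ Large (F n) (ξ n ω)) ∧
    (∀ (Ω : Type u) [MeasurableSpace Ω] (μ : Measure Ω) (ξ : ℕ → Ω → ℤ) (c : ℕ → ℤ)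
      (m : ℕ → ℕ) (κ : ℝ), (∀ n, 1 ≤ m n) → 0 ≤ κ → (∀ n, Noise μ (ξ n) (c n) (m n) κ) →
      (Summable fun n => (m n : ℝ) ^ (-(3 / 4) : ℝ)) →
      ∀ᵐ ω ∂μ, ∀ F, Regular F → ∀ᶠ n in atTop, ¬ Large F (ξ n ω)) :=
  ⟨count, gap,
    fun _ _ μ F ξ c m κ hF hm hκ hξ => prob μ F hF ξ c m hm κ hκ hξ,
    fun _ _ μ F ξ c m κ hF hm hκ hξ hs => seq μ F hF ξ c m hm κ hκ hξ hs,
    fun _ _ μ ξ c m κ hm hκ hξ hs => all μ ξ c m hm κ hκ hξ hs⟩

end Pool.Agent.Results.MP_2d259b_nt.ShortIntervals
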